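import Pool.Agent.H.MP_9ec287_co.Reflect

/-! The polynomial `8 G` (as a list of monomials in the six edge variables
`x01, x02, x03, x12, x13, x23`). -/

namespace Pool.Agent.H.MP_9ec287_co.Reflect

/-- monomials of the polynomial -/
def gl : List (List ℕ × Int) := [
  ([0,0,0,0,0,1], 16),
  ([0,0,0,0,1,0], 16),
  ([0,0,0,0,1,1], -16),
  ([0,0,0,1,0,0], 16),
  ([0,0,0,1,0,1], -16),
  ([0,0,0,1,1,0], -16),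
  ([0,0,0,1,1,1], -48),
  ([0,0,0,1,2,2], 32),
  ([0,0,0,2,1,2], 32),
  ([0,0,0,2,2,1], 32),
  ([0,0,1,0,0,0], 16),
  ([0,0,1,0,0,1], -16),
  ([0,0,1,0,1,0], -16),
  ([0,0,1,0,1,1], 12),
  ([0,0,1,1,0,0], 128),
  ([0,0,1,1,0,1], -28),
  ([0,0,1,1,1,0], -28),
  ([0,0,1,2,1,2], -16),
  ([0,0,1,2,2,1], -16),
  ([0,1,0,0,0,0], 16),
  ([0,1,0,0,0,1], -16),
  ([0,1,0,0,1,0], 128),
  ([0,1,0,0,1,1], -28),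
  ([0,1,0,1,0,0], -16),
  ([0,1,0,1,0,1], 12),
  ([0,1,0,1,1,0], -28),
  ([0,1,0,1,2,2], -16),
  ([0,1,0,2,2,1], -16),
  ([0,1,1,0,0,0], -16),
  ([0,1,1,0,0,1], -48),
  ([0,1,1,0,1,0], -28),
  ([0,1,1,1,0,0], -28),
  ([0,1,1,2,2,1], 16),
  ([0,1,2,0,0,2], 32),
  ([0,1,2,1,0,2], -16),
  ([0,2,1,0,0,2], 32),
  ([0,2,1,0,1,2], -16),
  ([0,2,2,0,0,1], 32),
  ([0,2,2,0,1,1], -16),
  ([0,2,2,1,0,1], -16),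
  ([0,2,2,1,1,1], 16),
  ([1,0,0,0,0,0], 16),
  ([1,0,0,0,0,1], 128),
  ([1,0,0,0,1,0], -16),
  ([1,0,0,0,1,1], -28),
  ([1,0,0,1,0,0], -16),
  ([1,0,0,1,0,1], -28),
  ([1,0,0,1,1,0], 12),
  ([1,0,0,1,2,2], -16),
  ([1,0,0,2,1,2], -16),
  ([1,0,1,0,0,0], -16),
  ([1,0,1,0,0,1], -28),
  ([1,0,1,0,1,0], -48),
  ([1,0,1,1,0,0], -28),
  ([1,0,1,2,1,2], 16),
  ([1,0,2,0,2,0], 32),
  ([1,0,2,1,2,0], -16),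
  ([1,1,0,0,0,0], -16),
  ([1,1,0,0,0,1], -28),
  ([1,1,0,0,1,0], -28),
  ([1,1,0,1,0,0], -48),
  ([1,1,0,1,2,2], 16),
  ([1,1,1,0,0,0], 12),
  ([1,1,2,0,0,2], -16),
  ([1,1,2,0,2,0], -16),
  ([1,1,2,1,0,2], 16),
  ([1,1,2,1,2,0], 16),
  ([1,2,0,2,0,0], 32),
  ([1,2,0,2,1,0], -16),
  ([1,2,1,0,0,2], -16),
  ([1,2,1,0,1,2], 16),
  ([1,2,1,2,0,0], -16),
  ([1,2,1,2,1,0], 16),
  ([2,0,1,0,2,0], 32),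
  ([2,0,1,0,2,1], -16),
  ([2,0,2,0,1,0], 32),
  ([2,0,2,0,1,1], -16),
  ([2,0,2,1,1,0], -16),
  ([2,0,2,1,1,1], 16),
  ([2,1,0,2,0,0], 32),
  ([2,1,0,2,0,1], -16),
  ([2,1,1,0,2,0], -16),
  ([2,1,1,0,2,1], 16),
  ([2,1,1,2,0,0], -16),
  ([2,1,1,2,0,1], 16),
  ([2,2,0,1,0,0], 32),
  ([2,2,0,1,0,1], -16),
  ([2,2,0,1,1,0], -16),
  ([2,2,0,1,1,1], 16)]

end Pool.Agent.H.MP_9ec287_co.Reflect
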