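import Mathlib

/-!
# MP_9ec287_co: definitions

`K22t t` is the complete tripartite graph `K(2,2,t)`; `InQ G` says that `G` arises from a
complete bipartite graph by adding edges inside the two classes so that neither class spans a
quadrilateral; `qbar n` is the maximum number of edges of such a graph on `n` vertices.
-/

open SimpleGraph

namespace Pool.Agent.H.MP_9ec287_co

/-- The complete tripartite graph with classes of sizes `2`, `2` and `t`. -/
def K22t (t : ℕ) : SimpleGraph (Σ i : Fin 3, Fin (![2, 2, t] i)) :=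
  completeMultipartiteGraph fun i : Fin 3 => Fin (![2, 2, t] i)

/-- `G ∈ Q(n)`: the vertex set splits into two classes (`A` and its complement) such that all
pairs between the classes are edges and neither class spans a quadrilateral. -/
def InQ {V : Type*} (G : SimpleGraph V) : Prop :=
  ∃ A : Set V, (∀ x ∈ A, ∀ y ∉ A, G.Adj x y) ∧
    (cycleGraph 4).Free (G.induce A) ∧ (cycleGraph 4).Free (G.induce Aᶜ)

/-- The maximum number of edges of a graph in `Q(n)`. -/
noncomputable def qbar (n : ℕ) : ℕ :=
  sSup {m | ∃ G : SimpleGraph (Fin n), InQ G ∧ G.edgeSet.ncard = m}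

/-- The extremal number `ex(n, C₄)`. -/
noncomputable def ex4 (n : ℕ) : ℕ := extremalNumber n (cycleGraph 4)

/-- `G` has no quadrilateral inside `S`. -/
def NoC4On {V : Type*} (G : SimpleGraph V) (S : Set V) : Prop :=
  ∀ a ∈ S, ∀ a' ∈ S, ∀ b ∈ S, ∀ b' ∈ S, a ≠ a' → b ≠ b' →
    G.Adj a b → G.Adj a' b → G.Adj a b' → G.Adj a' b' → False

/-- Every copy of `K(2,2)` (a quadrilateral `a b a' b'`) has fewer than `m` common neighbours. -/
def NoK22 {V : Type*} [Fintype V] [DecidableEq V] (G : SimpleGraph V) [DecidableRel G.Adj]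
    (m : ℝ) : Prop :=
  ∀ a a' b b' : V, a ≠ a' → b ≠ b' → G.Adj a b → G.Adj a' b → G.Adj a b' → G.Adj a' b' →
    ((Finset.univ.filter fun z => G.Adj z a ∧ G.Adj z a' ∧ G.Adj z b ∧ G.Adj z b').card : ℝ) < m

end Pool.Agent.H.MP_9ec287_co
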