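import Pool.Agent.H.MP_9ec287_co.Chk

/-! # The pointwise inequality `G ≥ 0` on `[0,2]^6` -/

namespace Pool.Agent.H.MP_9ec287_co.Reflect

/-- main term -/
noncomputable def m (c a b A B : ℝ) : ℝ := c * (1 + (a - 1) * (b - 1)) * A ^ 2 * B ^ 2

/-- The polynomial `2 G`; `xij ∈ [0,2]` is twice the weight of the pair `ij`. -/
noncomputable def G (x01 x02 x03 x12 x13 x23 : ℝ) : ℝ :=
  4 * (x01 + x02 + x03 + x12 + x13 + x23)
    + 32 * (x01 * x23 + x02 * x13 + x03 * x12)
    - 4 * (x01 * x02 + x01 * x03 + x02 * x03 + x01 * x12 + x01 * x13 + x12 * x13 + x02 * x12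
      + x02 * x23 + x12 * x23 + x03 * x13 + x03 * x23 + x13 * x23)
    + 3 * (x01 * x02 * x03 + x01 * x12 * x13 + x02 * x12 * x23 + x03 * x13 * x23)
    - 7 * (x01 * x12 * x23 + x01 * x13 * x23 + x02 * x12 * x13 + x02 * x23 * x13
      + x03 * x13 * x12 + x03 * x23 * x12 + x01 * x02 * x23 + x01 * x03 * x23
      + x12 * x02 * x03 + x13 * x03 * x02 + x02 * x01 * x13 + x12 * x01 * x03)
    - 12 * (x12 * x13 * x23 + x02 * x03 * x23 + x01 * x03 * x13 + x01 * x02 * x12)
    + 4 * (m x01 x02 x12 x03 x13 + m x01 x03 x13 x02 x12 + m x02 x01 x12 x03 x23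
      + m x02 x03 x23 x01 x12 + m x03 x01 x13 x02 x23 + m x03 x02 x23 x01 x13
      + m x12 x01 x02 x13 x23 + m x12 x13 x23 x01 x02 + m x13 x01 x03 x12 x23
      + m x13 x12 x23 x01 x03 + m x23 x02 x03 x12 x13 + m x23 x12 x13 x02 x03)

theorem val_gl (x01 x02 x03 x12 x13 x23 : ℝ) :
    val gl [x01, x02, x03, x12, x13, x23] = 4 * G x01 x02 x03 x12 x13 x23 := by
  simp only [gl, val, mono, G, m]
  push_cast
  ring

theorem cls0 {x01 x02 x03 x12 x13 x23 : ℝ} (h0 : 0 ≤ x01) (k0 : x01 ≤ 1) (h1 : 0 ≤ x02) (k1 : x02 ≤ 1) (h2 : 0 ≤ x03) (k2 : x03 ≤ 1) (h3 : 0 ≤ x12) (k3 : x12 ≤ 1) (h4 : 0 ≤ x13) (k4 : x13 ≤ 1) (h5 : 0 ≤ x23) (k5 : x23 ≤ 1) :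
    0 ≤ G x01 x02 x03 x12 x13 x23 := by
  have h := check_sound 6 gl [false, false, false, false, false, false] it0 rfl rfl chk0
    [1 - x01, 1 - x02, 1 - x03, 1 - x12, 1 - x13, 1 - x23] rfl rfl (by
      intro u hu
      simp only [List.mem_cons, List.not_mem_nil, or_false] at hu
      rcases hu with rfl | rfl | rfl | rfl | rfl | rfl <;> constructor <;> linarith)
  have e : val gl (pt [false, false, false, false, false, false]
      [1 - x01, 1 - x02, 1 - x03, 1 - x12, 1 - x13, 1 - x23]) = 4 * G x01 x02 x03 x12 x13 x23 := by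
    simp only [pt, add_sub_cancel, sub_sub_cancel, val_gl]
  rw [e] at h
  linarith

theorem cls1 {x01 x02 x03 x12 x13 x23 : ℝ} (h0 : 1 ≤ x01) (k0 : x01 ≤ 2) (h1 : 0 ≤ x02) (k1 : x02 ≤ 1) (h2 : 0 ≤ x03) (k2 : x03 ≤ 1) (h3 : 0 ≤ x12) (k3 : x12 ≤ 1) (h4 : 0 ≤ x13) (k4 : x13 ≤ 1) (h5 : 0 ≤ x23) (k5 : x23 ≤ 1) :
    0 ≤ G x01 x02 x03 x12 x13 x23 := by
  have h := check_sound 6 gl [true, false, false, false, false, false] it1 rfl rfl chk1
    [x01 - 1, 1 - x02, 1 - x03, 1 - x12, 1 - x13, 1 - x23] rfl rfl (by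
      intro u hu
      simp only [List.mem_cons, List.not_mem_nil, or_false] at hu
      rcases hu with rfl | rfl | rfl | rfl | rfl | rfl <;> constructor <;> linarith)
  have e : val gl (pt [true, false, false, false, false, false]
      [x01 - 1, 1 - x02, 1 - x03, 1 - x12, 1 - x13, 1 - x23]) = 4 * G x01 x02 x03 x12 x13 x23 := by
    simp only [pt, add_sub_cancel, sub_sub_cancel, val_gl]
  rw [e] at h
  linarith

theorem cls3 {x01 x02 x03 x12 x13 x23 : ℝ} (h0 : 1 ≤ x01) (k0 : x01 ≤ 2) (h1 : 1 ≤ x02) (k1 : x02 ≤ 2) (h2 : 0 ≤ x03) (k2 : x03 ≤ 1) (h3 : 0 ≤ x12) (k3 : x12 ≤ 1) (h4 : 0 ≤ x13) (k4 : x13 ≤ 1) (h5 : 0 ≤ x23) (k5 : x23 ≤ 1) :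
    0 ≤ G x01 x02 x03 x12 x13 x23 := by
  have h := check_sound 6 gl [true, true, false, false, false, false] it3 rfl rfl chk3
    [x01 - 1, x02 - 1, 1 - x03, 1 - x12, 1 - x13, 1 - x23] rfl rfl (by
      intro u hu
      simp only [List.mem_cons, List.not_mem_nil, or_false] at hu
      rcases hu with rfl | rfl | rfl | rfl | rfl | rfl <;> constructor <;> linarith)
  have e : val gl (pt [true, true, false, false, false, false]
      [x01 - 1, x02 - 1, 1 - x03, 1 - x12, 1 - x13, 1 - x23]) = 4 * G x01 x02 x03 x12 x13 x23 := by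
    simp only [pt, add_sub_cancel, sub_sub_cancel, val_gl]
  rw [e] at h
  linarith

theorem cls7 {x01 x02 x03 x12 x13 x23 : ℝ} (h0 : 1 ≤ x01) (k0 : x01 ≤ 2) (h1 : 1 ≤ x02) (k1 : x02 ≤ 2) (h2 : 1 ≤ x03) (k2 : x03 ≤ 2) (h3 : 0 ≤ x12) (k3 : x12 ≤ 1) (h4 : 0 ≤ x13) (k4 : x13 ≤ 1) (h5 : 0 ≤ x23) (k5 : x23 ≤ 1) :
    0 ≤ G x01 x02 x03 x12 x13 x23 := by
  have h := check_sound 6 gl [true, true, true, false, false, false] it7 rfl rfl chk7
    [x01 - 1, x02 - 1, x03 - 1, 1 - x12, 1 - x13, 1 - x23] rfl rfl (by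
      intro u hu
      simp only [List.mem_cons, List.not_mem_nil, or_false] at hu
      rcases hu with rfl | rfl | rfl | rfl | rfl | rfl <;> constructor <;> linarith)
  have e : val gl (pt [true, true, true, false, false, false]
      [x01 - 1, x02 - 1, x03 - 1, 1 - x12, 1 - x13, 1 - x23]) = 4 * G x01 x02 x03 x12 x13 x23 := by
    simp only [pt, add_sub_cancel, sub_sub_cancel, val_gl]
  rw [e] at h
  linarith

theorem cls11 {x01 x02 x03 x12 x13 x23 : ℝ} (h0 : 1 ≤ x01) (k0 : x01 ≤ 2) (h1 : 1 ≤ x02) (k1 : x02 ≤ 2) (h2 : 0 ≤ x03) (k2 : x03 ≤ 1) (h3 : 1 ≤ x12) (k3 : x12 ≤ 2) (h4 : 0 ≤ x13) (k4 : x13 ≤ 1) (h5 : 0 ≤ x23) (k5 : x23 ≤ 1) :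
    0 ≤ G x01 x02 x03 x12 x13 x23 := by
  have h := check_sound 6 gl [true, true, false, true, false, false] it11 rfl rfl chk11
    [x01 - 1, x02 - 1, 1 - x03, x12 - 1, 1 - x13, 1 - x23] rfl rfl (by
      intro u hu
      simp only [List.mem_cons, List.not_mem_nil, or_false] at hu
      rcases hu with rfl | rfl | rfl | rfl | rfl | rfl <;> constructor <;> linarith)
  have e : val gl (pt [true, true, false, true, false, false]
      [x01 - 1, x02 - 1, 1 - x03, x12 - 1, 1 - x13, 1 - x23]) = 4 * G x01 x02 x03 x12 x13 x23 := by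
    simp only [pt, add_sub_cancel, sub_sub_cancel, val_gl]
  rw [e] at h
  linarith

theorem cls12 {x01 x02 x03 x12 x13 x23 : ℝ} (h0 : 0 ≤ x01) (k0 : x01 ≤ 1) (h1 : 0 ≤ x02) (k1 : x02 ≤ 1) (h2 : 1 ≤ x03) (k2 : x03 ≤ 2) (h3 : 1 ≤ x12) (k3 : x12 ≤ 2) (h4 : 0 ≤ x13) (k4 : x13 ≤ 1) (h5 : 0 ≤ x23) (k5 : x23 ≤ 1) :
    0 ≤ G x01 x02 x03 x12 x13 x23 := by
  have h := check_sound 6 gl [false, false, true, true, false, false] it12 rfl rfl chk12
    [1 - x01, 1 - x02, x03 - 1, x12 - 1, 1 - x13, 1 - x23] rfl rfl (by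
      intro u hu
      simp only [List.mem_cons, List.not_mem_nil, or_false] at hu
      rcases hu with rfl | rfl | rfl | rfl | rfl | rfl <;> constructor <;> linarith)
  have e : val gl (pt [false, false, true, true, false, false]
      [1 - x01, 1 - x02, x03 - 1, x12 - 1, 1 - x13, 1 - x23]) = 4 * G x01 x02 x03 x12 x13 x23 := by
    simp only [pt, add_sub_cancel, sub_sub_cancel, val_gl]
  rw [e] at h
  linarith

theorem cls13 {x01 x02 x03 x12 x13 x23 : ℝ} (h0 : 1 ≤ x01) (k0 : x01 ≤ 2) (h1 : 0 ≤ x02) (k1 : x02 ≤ 1) (h2 : 1 ≤ x03) (k2 : x03 ≤ 2) (h3 : 1 ≤ x12) (k3 : x12 ≤ 2) (h4 : 0 ≤ x13) (k4 : x13 ≤ 1) (h5 : 0 ≤ x23) (k5 : x23 ≤ 1) :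
    0 ≤ G x01 x02 x03 x12 x13 x23 := by
  have h := check_sound 6 gl [true, false, true, true, false, false] it13 rfl rfl chk13
    [x01 - 1, 1 - x02, x03 - 1, x12 - 1, 1 - x13, 1 - x23] rfl rfl (by
      intro u hu
      simp only [List.mem_cons, List.not_mem_nil, or_false] at hu
      rcases hu with rfl | rfl | rfl | rfl | rfl | rfl <;> constructor <;> linarith)
  have e : val gl (pt [true, false, true, true, false, false]
      [x01 - 1, 1 - x02, x03 - 1, x12 - 1, 1 - x13, 1 - x23]) = 4 * G x01 x02 x03 x12 x13 x23 := by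
    simp only [pt, add_sub_cancel, sub_sub_cancel, val_gl]
  rw [e] at h
  linarith

theorem cls15 {x01 x02 x03 x12 x13 x23 : ℝ} (h0 : 1 ≤ x01) (k0 : x01 ≤ 2) (h1 : 1 ≤ x02) (k1 : x02 ≤ 2) (h2 : 1 ≤ x03) (k2 : x03 ≤ 2) (h3 : 1 ≤ x12) (k3 : x12 ≤ 2) (h4 : 0 ≤ x13) (k4 : x13 ≤ 1) (h5 : 0 ≤ x23) (k5 : x23 ≤ 1) :
    0 ≤ G x01 x02 x03 x12 x13 x23 := by
  have h := check_sound 6 gl [true, true, true, true, false, false] it15 rfl rfl chk15
    [x01 - 1, x02 - 1, x03 - 1, x12 - 1, 1 - x13, 1 - x23] rfl rfl (by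
      intro u hu
      simp only [List.mem_cons, List.not_mem_nil, or_false] at hu
      rcases hu with rfl | rfl | rfl | rfl | rfl | rfl <;> constructor <;> linarith)
  have e : val gl (pt [true, true, true, true, false, false]
      [x01 - 1, x02 - 1, x03 - 1, x12 - 1, 1 - x13, 1 - x23]) = 4 * G x01 x02 x03 x12 x13 x23 := by
    simp only [pt, add_sub_cancel, sub_sub_cancel, val_gl]
  rw [e] at h
  linarith

theorem cls30 {x01 x02 x03 x12 x13 x23 : ℝ} (h0 : 0 ≤ x01) (k0 : x01 ≤ 1) (h1 : 1 ≤ x02) (k1 : x02 ≤ 2) (h2 : 1 ≤ x03) (k2 : x03 ≤ 2) (h3 : 1 ≤ x12) (k3 : x12 ≤ 2) (h4 : 1 ≤ x13) (k4 : x13 ≤ 2) (h5 : 0 ≤ x23) (k5 : x23 ≤ 1) :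
    0 ≤ G x01 x02 x03 x12 x13 x23 := by
  have h := check_sound 6 gl [false, true, true, true, true, false] it30 rfl rfl chk30
    [1 - x01, x02 - 1, x03 - 1, x12 - 1, x13 - 1, 1 - x23] rfl rfl (by
      intro u hu
      simp only [List.mem_cons, List.not_mem_nil, or_false] at hu
      rcases hu with rfl | rfl | rfl | rfl | rfl | rfl <;> constructor <;> linarith)
  have e : val gl (pt [false, true, true, true, true, false]
      [1 - x01, x02 - 1, x03 - 1, x12 - 1, x13 - 1, 1 - x23]) = 4 * G x01 x02 x03 x12 x13 x23 := by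
    simp only [pt, add_sub_cancel, sub_sub_cancel, val_gl]
  rw [e] at h
  linarith

theorem cls31 {x01 x02 x03 x12 x13 x23 : ℝ} (h0 : 1 ≤ x01) (k0 : x01 ≤ 2) (h1 : 1 ≤ x02) (k1 : x02 ≤ 2) (h2 : 1 ≤ x03) (k2 : x03 ≤ 2) (h3 : 1 ≤ x12) (k3 : x12 ≤ 2) (h4 : 1 ≤ x13) (k4 : x13 ≤ 2) (h5 : 0 ≤ x23) (k5 : x23 ≤ 1) :
    0 ≤ G x01 x02 x03 x12 x13 x23 := by
  have h := check_sound 6 gl [true, true, true, true, true, false] it31 rfl rfl chk31
    [x01 - 1, x02 - 1, x03 - 1, x12 - 1, x13 - 1, 1 - x23] rfl rfl (by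
      intro u hu
      simp only [List.mem_cons, List.not_mem_nil, or_false] at hu
      rcases hu with rfl | rfl | rfl | rfl | rfl | rfl <;> constructor <;> linarith)
  have e : val gl (pt [true, true, true, true, true, false]
      [x01 - 1, x02 - 1, x03 - 1, x12 - 1, x13 - 1, 1 - x23]) = 4 * G x01 x02 x03 x12 x13 x23 := by
    simp only [pt, add_sub_cancel, sub_sub_cancel, val_gl]
  rw [e] at h
  linarith

theorem cls63 {x01 x02 x03 x12 x13 x23 : ℝ} (h0 : 1 ≤ x01) (k0 : x01 ≤ 2) (h1 : 1 ≤ x02) (k1 : x02 ≤ 2) (h2 : 1 ≤ x03) (k2 : x03 ≤ 2) (h3 : 1 ≤ x12) (k3 : x12 ≤ 2) (h4 : 1 ≤ x13) (k4 : x13 ≤ 2) (h5 : 1 ≤ x23) (k5 : x23 ≤ 2) :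
    0 ≤ G x01 x02 x03 x12 x13 x23 := by
  have h := check_sound 6 gl [true, true, true, true, true, true] it63 rfl rfl chk63
    [x01 - 1, x02 - 1, x03 - 1, x12 - 1, x13 - 1, x23 - 1] rfl rfl (by
      intro u hu
      simp only [List.mem_cons, List.not_mem_nil, or_false] at hu
      rcases hu with rfl | rfl | rfl | rfl | rfl | rfl <;> constructor <;> linarith)
  have e : val gl (pt [true, true, true, true, true, true]
      [x01 - 1, x02 - 1, x03 - 1, x12 - 1, x13 - 1, x23 - 1]) = 4 * G x01 x02 x03 x12 x13 x23 := by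
    simp only [pt, add_sub_cancel, sub_sub_cancel, val_gl]
  rw [e] at h
  linarith

theorem symm_021435 (x01 x02 x03 x12 x13 x23 : ℝ) :
    G x01 x02 x03 x12 x13 x23 = G x01 x03 x02 x13 x12 x23 := by
  unfold G m; ring

theorem symm_034125 (x01 x02 x03 x12 x13 x23 : ℝ) :
    G x01 x02 x03 x12 x13 x23 = G x01 x12 x13 x02 x03 x23 := by
  unfold G m; ring

theorem symm_043215 (x01 x02 x03 x12 x13 x23 : ℝ) :
    G x01 x02 x03 x12 x13 x23 = G x01 x13 x12 x03 x02 x23 := by
  unfold G m; ring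

theorem symm_102354 (x01 x02 x03 x12 x13 x23 : ℝ) :
    G x01 x02 x03 x12 x13 x23 = G x02 x01 x03 x12 x23 x13 := by
  unfold G m; ring

theorem symm_120534 (x01 x02 x03 x12 x13 x23 : ℝ) :
    G x01 x02 x03 x12 x13 x23 = G x02 x03 x01 x23 x12 x13 := by
  unfold G m; ring

theorem symm_135024 (x01 x02 x03 x12 x13 x23 : ℝ) :
    G x01 x02 x03 x12 x13 x23 = G x02 x12 x23 x01 x03 x13 := by
  unfold G m; ring

theorem symm_153204 (x01 x02 x03 x12 x13 x23 : ℝ) :
    G x01 x02 x03 x12 x13 x23 = G x02 x23 x12 x03 x01 x13 := by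
  unfold G m; ring

theorem symm_201453 (x01 x02 x03 x12 x13 x23 : ℝ) :
    G x01 x02 x03 x12 x13 x23 = G x03 x01 x02 x13 x23 x12 := by
  unfold G m; ring

theorem symm_210543 (x01 x02 x03 x12 x13 x23 : ℝ) :
    G x01 x02 x03 x12 x13 x23 = G x03 x02 x01 x23 x13 x12 := by
  unfold G m; ring

theorem symm_245013 (x01 x02 x03 x12 x13 x23 : ℝ) :
    G x01 x02 x03 x12 x13 x23 = G x03 x13 x23 x01 x02 x12 := by
  unfold G m; ring

theorem symm_254103 (x01 x02 x03 x12 x13 x23 : ℝ) :
    G x01 x02 x03 x12 x13 x23 = G x03 x23 x13 x02 x01 x12 := by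
  unfold G m; ring

theorem symm_304152 (x01 x02 x03 x12 x13 x23 : ℝ) :
    G x01 x02 x03 x12 x13 x23 = G x12 x01 x13 x02 x23 x03 := by
  unfold G m; ring

theorem symm_315042 (x01 x02 x03 x12 x13 x23 : ℝ) :
    G x01 x02 x03 x12 x13 x23 = G x12 x02 x23 x01 x13 x03 := by
  unfold G m; ring

theorem symm_340512 (x01 x02 x03 x12 x13 x23 : ℝ) :
    G x01 x02 x03 x12 x13 x23 = G x12 x13 x01 x23 x02 x03 := by
  unfold G m; ring

theorem symm_351402 (x01 x02 x03 x12 x13 x23 : ℝ) :
    G x01 x02 x03 x12 x13 x23 = G x12 x23 x02 x13 x01 x03 := by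
  unfold G m; ring

theorem symm_403251 (x01 x02 x03 x12 x13 x23 : ℝ) :
    G x01 x02 x03 x12 x13 x23 = G x13 x01 x12 x03 x23 x02 := by
  unfold G m; ring

theorem symm_425031 (x01 x02 x03 x12 x13 x23 : ℝ) :
    G x01 x02 x03 x12 x13 x23 = G x13 x03 x23 x01 x12 x02 := by
  unfold G m; ring

theorem symm_452301 (x01 x02 x03 x12 x13 x23 : ℝ) :
    G x01 x02 x03 x12 x13 x23 = G x13 x23 x03 x12 x01 x02 := by
  unfold G m; ring

theorem symm_513240 (x01 x02 x03 x12 x13 x23 : ℝ) :
    G x01 x02 x03 x12 x13 x23 = G x23 x02 x12 x03 x13 x01 := by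
  unfold G m; ring

theorem symm_524130 (x01 x02 x03 x12 x13 x23 : ℝ) :
    G x01 x02 x03 x12 x13 x23 = G x23 x03 x13 x02 x12 x01 := by
  unfold G m; ring

theorem G_nonneg {x01 x02 x03 x12 x13 x23 : ℝ} (a01 : 0 ≤ x01) (b01 : x01 ≤ 2)
    (a02 : 0 ≤ x02) (b02 : x02 ≤ 2) (a03 : 0 ≤ x03) (b03 : x03 ≤ 2) (a12 : 0 ≤ x12) (b12 : x12 ≤ 2)
    (a13 : 0 ≤ x13) (b13 : x13 ≤ 2) (a23 : 0 ≤ x23) (b23 : x23 ≤ 2) :
    0 ≤ G x01 x02 x03 x12 x13 x23 := by
  rcases le_total x01 1 with c01 | c01
  · rcases le_total x02 1 with c02 | c02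
    · rcases le_total x03 1 with c03 | c03
      · rcases le_total x12 1 with c12 | c12
        · rcases le_total x13 1 with c13 | c13
          · rcases le_total x23 1 with c23 | c23
            · exact cls0 a01 c01 a02 c02 a03 c03 a12 c12 a13 c13 a23 c23
            · rw [symm_513240]; exact cls1 c23 b23 a02 c02 a12 c12 a03 c03 a13 c13 a01 c01
          · rcases le_total x23 1 with c23 | c23
            · rw [symm_403251]; exact cls1 c13 b13 a01 c01 a12 c12 a03 c03 a23 c23 a02 c02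
            · rw [symm_452301]; exact cls3 c13 b13 c23 b23 a03 c03 a12 c12 a01 c01 a02 c02
        · rcases le_total x13 1 with c13 | c13
          · rcases le_total x23 1 with c23 | c23
            · rw [symm_304152]; exact cls1 c12 b12 a01 c01 a13 c13 a02 c02 a23 c23 a03 c03
            · rw [symm_351402]; exact cls3 c12 b12 c23 b23 a02 c02 a13 c13 a01 c01 a03 c03
          · rcases le_total x23 1 with c23 | c23
            · rw [symm_340512]; exact cls3 c12 b12 c13 b13 a01 c01 a23 c23 a02 c02 a03 c03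
            · rw [symm_340512]; exact cls11 c12 b12 c13 b13 a01 c01 c23 b23 a02 c02 a03 c03
      · rcases le_total x12 1 with c12 | c12
        · rcases le_total x13 1 with c13 | c13
          · rcases le_total x23 1 with c23 | c23
            · rw [symm_201453]; exact cls1 c03 b03 a01 c01 a02 c02 a13 c13 a23 c23 a12 c12
            · rw [symm_254103]; exact cls3 c03 b03 c23 b23 a13 c13 a02 c02 a01 c01 a12 c12
          · rcases le_total x23 1 with c23 | c23
            · rw [symm_245013]; exact cls3 c03 b03 c13 b13 a23 c23 a01 c01 a02 c02 a12 c12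
            · rw [symm_245013]; exact cls7 c03 b03 c13 b13 c23 b23 a01 c01 a02 c02 a12 c12
        · rcases le_total x13 1 with c13 | c13
          · rcases le_total x23 1 with c23 | c23
            · exact cls12 a01 c01 a02 c02 c03 b03 c12 b12 a13 c13 a23 c23
            · rw [symm_513240]; exact cls13 c23 b23 a02 c02 c12 b12 c03 b03 a13 c13 a01 c01
          · rcases le_total x23 1 with c23 | c23
            · rw [symm_403251]; exact cls13 c13 b13 a01 c01 c12 b12 c03 b03 a23 c23 a02 c02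
            · rw [symm_452301]; exact cls15 c13 b13 c23 b23 c03 b03 c12 b12 a01 c01 a02 c02
    · rcases le_total x03 1 with c03 | c03
      · rcases le_total x12 1 with c12 | c12
        · rcases le_total x13 1 with c13 | c13
          · rcases le_total x23 1 with c23 | c23
            · rw [symm_102354]; exact cls1 c02 b02 a01 c01 a03 c03 a12 c12 a23 c23 a13 c13
            · rw [symm_153204]; exact cls3 c02 b02 c23 b23 a12 c12 a03 c03 a01 c01 a13 c13
          · rcases le_total x23 1 with c23 | c23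
            · rw [symm_021435]; exact cls12 a01 c01 a03 c03 c02 b02 c13 b13 a12 c12 a23 c23
            · rw [symm_524130]; exact cls13 c23 b23 a03 c03 c13 b13 c02 b02 a12 c12 a01 c01
        · rcases le_total x13 1 with c13 | c13
          · rcases le_total x23 1 with c23 | c23
            · rw [symm_135024]; exact cls3 c02 b02 c12 b12 a23 c23 a01 c01 a03 c03 a13 c13
            · rw [symm_135024]; exact cls7 c02 b02 c12 b12 c23 b23 a01 c01 a03 c03 a13 c13
          · rcases le_total x23 1 with c23 | c23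
            · rw [symm_304152]; exact cls13 c12 b12 a01 c01 c13 b13 c02 b02 a23 c23 a03 c03
            · rw [symm_351402]; exact cls15 c12 b12 c23 b23 c02 b02 c13 b13 a01 c01 a03 c03
      · rcases le_total x12 1 with c12 | c12
        · rcases le_total x13 1 with c13 | c13
          · rcases le_total x23 1 with c23 | c23
            · rw [symm_120534]; exact cls3 c02 b02 c03 b03 a01 c01 a23 c23 a12 c12 a13 c13
            · rw [symm_120534]; exact cls11 c02 b02 c03 b03 a01 c01 c23 b23 a12 c12 a13 c13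
          · rcases le_total x23 1 with c23 | c23
            · rw [symm_201453]; exact cls13 c03 b03 a01 c01 c02 b02 c13 b13 a23 c23 a12 c12
            · rw [symm_254103]; exact cls15 c03 b03 c23 b23 c13 b13 c02 b02 a01 c01 a12 c12
        · rcases le_total x13 1 with c13 | c13
          · rcases le_total x23 1 with c23 | c23
            · rw [symm_102354]; exact cls13 c02 b02 a01 c01 c03 b03 c12 b12 a23 c23 a13 c13
            · rw [symm_153204]; exact cls15 c02 b02 c23 b23 c12 b12 c03 b03 a01 c01 a13 c13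
          · rcases le_total x23 1 with c23 | c23
            · exact cls30 a01 c01 c02 b02 c03 b03 c12 b12 c13 b13 a23 c23
            · rw [symm_513240]; exact cls31 c23 b23 c02 b02 c12 b12 c03 b03 c13 b13 a01 c01
  · rcases le_total x02 1 with c02 | c02
    · rcases le_total x03 1 with c03 | c03
      · rcases le_total x12 1 with c12 | c12
        · rcases le_total x13 1 with c13 | c13
          · rcases le_total x23 1 with c23 | c23
            · exact cls1 c01 b01 a02 c02 a03 c03 a12 c12 a13 c13 a23 c23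
            · rw [symm_120534]; exact cls12 a02 c02 a03 c03 c01 b01 c23 b23 a12 c12 a13 c13
          · rcases le_total x23 1 with c23 | c23
            · rw [symm_043215]; exact cls3 c01 b01 c13 b13 a12 c12 a03 c03 a02 c02 a23 c23
            · rw [symm_425031]; exact cls13 c13 b13 a03 c03 c23 b23 c01 b01 a12 c12 a02 c02
        · rcases le_total x13 1 with c13 | c13
          · rcases le_total x23 1 with c23 | c23
            · rw [symm_034125]; exact cls3 c01 b01 c12 b12 a13 c13 a02 c02 a03 c03 a23 c23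
            · rw [symm_315042]; exact cls13 c12 b12 a02 c02 c23 b23 c01 b01 a13 c13 a03 c03
          · rcases le_total x23 1 with c23 | c23
            · rw [symm_034125]; exact cls7 c01 b01 c12 b12 c13 b13 a02 c02 a03 c03 a23 c23
            · rw [symm_340512]; exact cls15 c12 b12 c13 b13 c01 b01 c23 b23 a02 c02 a03 c03
      · rcases le_total x12 1 with c12 | c12
        · rcases le_total x13 1 with c13 | c13
          · rcases le_total x23 1 with c23 | c23
            · rw [symm_021435]; exact cls3 c01 b01 c03 b03 a02 c02 a13 c13 a12 c12 a23 c23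
            · rw [symm_210543]; exact cls13 c03 b03 a02 c02 c01 b01 c23 b23 a13 c13 a12 c12
          · rcases le_total x23 1 with c23 | c23
            · rw [symm_021435]; exact cls11 c01 b01 c03 b03 a02 c02 c13 b13 a12 c12 a23 c23
            · rw [symm_245013]; exact cls15 c03 b03 c13 b13 c23 b23 c01 b01 a02 c02 a12 c12
        · rcases le_total x13 1 with c13 | c13
          · rcases le_total x23 1 with c23 | c23
            · exact cls13 c01 b01 a02 c02 c03 b03 c12 b12 a13 c13 a23 c23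
            · rw [symm_102354]; exact cls30 a02 c02 c01 b01 c03 b03 c12 b12 c23 b23 a13 c13
          · rcases le_total x23 1 with c23 | c23
            · rw [symm_043215]; exact cls15 c01 b01 c13 b13 c12 b12 c03 b03 a02 c02 a23 c23
            · rw [symm_403251]; exact cls31 c13 b13 c01 b01 c12 b12 c03 b03 c23 b23 a02 c02
    · rcases le_total x03 1 with c03 | c03
      · rcases le_total x12 1 with c12 | c12
        · rcases le_total x13 1 with c13 | c13
          · rcases le_total x23 1 with c23 | c23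
            · exact cls3 c01 b01 c02 b02 a03 c03 a12 c12 a13 c13 a23 c23
            · rw [symm_120534]; exact cls13 c02 b02 a03 c03 c01 b01 c23 b23 a12 c12 a13 c13
          · rcases le_total x23 1 with c23 | c23
            · rw [symm_021435]; exact cls13 c01 b01 a03 c03 c02 b02 c13 b13 a12 c12 a23 c23
            · rw [symm_201453]; exact cls30 a03 c03 c01 b01 c02 b02 c13 b13 c23 b23 a12 c12
        · rcases le_total x13 1 with c13 | c13
          · rcases le_total x23 1 with c23 | c23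
            · exact cls11 c01 b01 c02 b02 a03 c03 c12 b12 a13 c13 a23 c23
            · rw [symm_135024]; exact cls15 c02 b02 c12 b12 c23 b23 c01 b01 a03 c03 a13 c13
          · rcases le_total x23 1 with c23 | c23
            · rw [symm_034125]; exact cls15 c01 b01 c12 b12 c13 b13 c02 b02 a03 c03 a23 c23
            · rw [symm_304152]; exact cls31 c12 b12 c01 b01 c13 b13 c02 b02 c23 b23 a03 c03
      · rcases le_total x12 1 with c12 | c12
        · rcases le_total x13 1 with c13 | c13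
          · rcases le_total x23 1 with c23 | c23
            · exact cls7 c01 b01 c02 b02 c03 b03 a12 c12 a13 c13 a23 c23
            · rw [symm_120534]; exact cls15 c02 b02 c03 b03 c01 b01 c23 b23 a12 c12 a13 c13
          · rcases le_total x23 1 with c23 | c23
            · rw [symm_021435]; exact cls15 c01 b01 c03 b03 c02 b02 c13 b13 a12 c12 a23 c23
            · rw [symm_201453]; exact cls31 c03 b03 c01 b01 c02 b02 c13 b13 c23 b23 a12 c12
        · rcases le_total x13 1 with c13 | c13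
          · rcases le_total x23 1 with c23 | c23
            · exact cls15 c01 b01 c02 b02 c03 b03 c12 b12 a13 c13 a23 c23
            · rw [symm_102354]; exact cls31 c02 b02 c01 b01 c03 b03 c12 b12 c23 b23 a13 c13
          · rcases le_total x23 1 with c23 | c23
            · exact cls31 c01 b01 c02 b02 c03 b03 c12 b12 c13 b13 a23 c23
            · exact cls63 c01 b01 c02 b02 c03 b03 c12 b12 c13 b13 c23 b23

end Pool.Agent.H.MP_9ec287_co.Reflect
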