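import Mathlib

/-!
# A small reflective checker for polynomial inequalities on `[0,1]^n`

Polynomials of degree at most `2` in each variable are stored as ternary trees of integers
(`Tr n`).  `evP` evaluates a tree in the power basis `1, x, x^2`; `evB` evaluates it in the basis
`(1-u)^2, u(1-u), u^2`.  `conv` converts from the power basis in `x = 1 ± u` to the second basis.
A certificate is a list of AM-GM inequalities between basis elements.
-/

namespace Pool.Agent.H.MP_9ec287_co.Reflect

/-- Ternary trees of integers of depth `n`. -/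
def Tr : ℕ → Type
  | 0 => Int
  | n + 1 => Tr n × Tr n × Tr n

/-- Power basis evaluation. -/
def evP : (n : ℕ) → Tr n → List ℝ → ℝ
  | 0, z, _ => ((show Int from z) : ℝ)
  | _ + 1, _, [] => 0
  | n + 1, t, x :: xs => evP n t.1 xs + evP n t.2.1 xs * x + evP n t.2.2 xs * x ^ 2

/-- Bernstein-type basis evaluation. -/
def evB : (n : ℕ) → Tr n → List ℝ → ℝ
  | 0, z, _ => ((show Int from z) : ℝ)
  | _ + 1, _, [] => 0
  | n + 1, t, u :: us =>
      evB n t.1 us * (1 - u) ^ 2 + evB n t.2.1 us * (u * (1 - u)) + evB n t.2.2 us * u ^ 2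

/-- Linear combination `p a + q b + r c`. -/
def lc (p q r : Int) : (n : ℕ) → Tr n → Tr n → Tr n → Tr n
  | 0, a, b, c => (show Int from p * (show Int from a) + q * (show Int from b)
      + r * (show Int from c))
  | n + 1, a, b, c =>
      (lc p q r n a.1 b.1 c.1, lc p q r n a.2.1 b.2.1 c.2.1, lc p q r n a.2.2 b.2.2 c.2.2)

theorem cast_lc (p q r x y z : Int) :
    ((p * x + q * y + r * z : Int) : ℝ) = p * (x : ℝ) + q * (y : ℝ) + r * (z : ℝ) := by
  push_cast; ring

theorem cast_add (x z : Int) : ((x + z : Int) : ℝ) = (x : ℝ) + (z : ℝ) := by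
  push_cast; ring

theorem evB_lc (p q r : Int) : ∀ (n : ℕ) (a b c : Tr n) (us : List ℝ),
    evB n (lc p q r n a b c) us = p * evB n a us + q * evB n b us + r * evB n c us
  | 0, a, b, c, us => cast_lc p q r a b c
  | n + 1, a, b, c, [] => by simp [evB]
  | n + 1, a, b, c, u :: us => by
      simp only [evB, lc, evB_lc p q r n]
      ring

/-- Conversion from the power basis in `x` to the second basis in `u`, `x = 1 + u` for `true`
and `x = 1 - u` for `false`. -/
def conv : (n : ℕ) → List Bool → Tr n → Tr n
  | 0, _, z => z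
  | _ + 1, [], z => z
  | n + 1, true :: ss, t =>
      let a := conv n ss t.1
      let b := conv n ss t.2.1
      let c := conv n ss t.2.2
      (lc 1 1 1 n a b c, lc 2 3 4 n a b c, lc 1 2 4 n a b c)
  | n + 1, false :: ss, t =>
      let a := conv n ss t.1
      let b := conv n ss t.2.1
      let c := conv n ss t.2.2
      (lc 1 1 1 n a b c, lc 2 1 0 n a b c, lc 1 0 0 n a b c)

/-- The point `x` corresponding to `u`. -/
def pt : List Bool → List ℝ → List ℝ
  | true :: ss, u :: us => (1 + u) :: pt ss us
  | false :: ss, u :: us => (1 - u) :: pt ss us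
  | _, _ => []

theorem evB_conv : ∀ (n : ℕ) (ss : List Bool) (t : Tr n) (us : List ℝ),
    ss.length = n → us.length = n → evB n (conv n ss t) us = evP n t (pt ss us)
  | 0, ss, t, us, _, _ => by simp [evB, evP, conv]
  | n + 1, [], t, us, h, _ => by simp at h
  | n + 1, _ :: _, t, [], _, h => by simp at h
  | n + 1, true :: ss, t, u :: us, h, h' => by
      have h1 : ss.length = n := by simpa using h
      have h2 : us.length = n := by simpa using h'
      simp only [conv, evB, pt, evP, evB_lc]
      rw [evB_conv n ss t.1 us h1 h2, evB_conv n ss t.2.1 us h1 h2, evB_conv n ss t.2.2 us h1 h2]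
      push_cast
      ring
  | n + 1, false :: ss, t, u :: us, h, h' => by
      have h1 : ss.length = n := by simpa using h
      have h2 : us.length = n := by simpa using h'
      simp only [conv, evB, pt, evP, evB_lc]
      rw [evB_conv n ss t.1 us h1 h2, evB_conv n ss t.2.1 us h1 h2, evB_conv n ss t.2.2 us h1 h2]
      push_cast
      ring

/-- Add `z` at the leaf given by a path with digits `0, 1, 2` (other digits count as `2`). -/
def upd (z : Int) : (n : ℕ) → List ℕ → Tr n → Tr n
  | 0, _, t => (show Int from (show Int from t) + z)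
  | _ + 1, [], t => t
  | n + 1, 0 :: ds, t => (upd z n ds t.1, t.2.1, t.2.2)
  | n + 1, 1 :: ds, t => (t.1, upd z n ds t.2.1, t.2.2)
  | n + 1, (_ + 2) :: ds, t => (t.1, t.2.1, upd z n ds t.2.2)

/-- Basis element of a path. -/
def bas : List ℕ → List ℝ → ℝ
  | 0 :: ds, u :: us => (1 - u) ^ 2 * bas ds us
  | 1 :: ds, u :: us => (u * (1 - u)) * bas ds us
  | (_ + 2) :: ds, u :: us => u ^ 2 * bas ds us
  | _, _ => 1

theorem evB_upd (z : Int) : ∀ (n : ℕ) (ds : List ℕ) (t : Tr n) (us : List ℝ),
    ds.length = n → us.length = n → evB n (upd z n ds t) us = evB n t us + z * bas ds us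
  | 0, ds, t, us, h, h' => by
      have h1 : ds = [] := List.length_eq_zero_iff.mp h
      subst h1
      have e : bas [] us = 1 := by simp [bas]
      rw [e, mul_one]
      exact cast_add t z
  | n + 1, [], t, us, h, _ => by simp at h
  | n + 1, _ :: _, t, [], _, h => by simp at h
  | n + 1, 0 :: ds, t, u :: us, h, h' => by
      have h1 : ds.length = n := by simpa using h
      have h2 : us.length = n := by simpa using h'
      simp only [upd, evB, bas]
      rw [evB_upd z n ds t.1 us h1 h2]
      ring
  | n + 1, 1 :: ds, t, u :: us, h, h' => by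
      have h1 : ds.length = n := by simpa using h
      have h2 : us.length = n := by simpa using h'
      simp only [upd, evB, bas]
      rw [evB_upd z n ds t.2.1 us h1 h2]
      ring
  | n + 1, (_ + 2) :: ds, t, u :: us, h, h' => by
      have h1 : ds.length = n := by simpa using h
      have h2 : us.length = n := by simpa using h'
      simp only [upd, evB, bas]
      rw [evB_upd z n ds t.2.2 us h1 h2]
      ring

/-- All leaves are non-negative. -/
def nn : (n : ℕ) → Tr n → Bool
  | 0, z => match (show Int from z) with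
    | Int.ofNat _ => true
    | Int.negSucc _ => false
  | n + 1, t => nn n t.1 && (nn n t.2.1 && nn n t.2.2)

theorem evB_nonneg : ∀ (n : ℕ) (t : Tr n) (us : List ℝ), (∀ u ∈ us, 0 ≤ u ∧ u ≤ 1) →
    nn n t = true → 0 ≤ evB n t us
  | 0, z, us, _, h => by
      have : (0 : ℤ) ≤ (show Int from z) := by
        revert h
        simp only [nn]
        cases (show Int from z) with
        | ofNat k => intro _; exact Int.natCast_nonneg k
        | negSucc k => intro h; exact absurd h (by simp)
      simpa [evB] using (by exact_mod_cast this : (0 : ℝ) ≤ ((show Int from z : ℤ) : ℝ))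
  | n + 1, t, [], _, h => by simp [evB]
  | n + 1, t, u :: us, hu, h => by
      simp only [nn, Bool.and_eq_true] at h
      have h0 : 0 ≤ u ∧ u ≤ 1 := hu u (by simp)
      have hus : ∀ v ∈ us, 0 ≤ v ∧ v ≤ 1 := fun v hv => hu v (by simp [hv])
      have a := evB_nonneg n t.1 us hus h.1
      have b := evB_nonneg n t.2.1 us hus h.2.1
      have c := evB_nonneg n t.2.2 us hus h.2.2
      have e : 0 ≤ 1 - u := by linarith [h0.2]
      simp only [evB]
      have := h0.1
      positivity

/-- digit decoding: `0,1,2 ↦` same digit, `3 ↦ (0,2)`, `4 ↦ (2,0)` -/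
def lo : ℕ → ℕ
  | 0 => 0
  | 1 => 1
  | 2 => 2
  | 3 => 0
  | _ => 2
/-- second digit -/
def hi : ℕ → ℕ
  | 0 => 0
  | 1 => 1
  | 2 => 2
  | 3 => 2
  | _ => 0
/-- middle digit -/
def mid : ℕ → ℕ
  | 0 => 0
  | 1 => 1
  | 2 => 2
  | 3 => 1
  | _ => 1

/-- `k` base-5 digits of `c` -/
def digs : ℕ → ℕ → List ℕ
  | 0, _ => []
  | k + 1, c => (c % 5) :: digs k (c / 5)

theorem digs_length : ∀ k c, (digs k c).length = k
  | 0, _ => rfl
  | k + 1, c => by simp [digs, digs_length k]

theorem bas_nonneg : ∀ (ds : List ℕ) (us : List ℝ), (∀ u ∈ us, 0 ≤ u ∧ u ≤ 1) → 0 ≤ bas ds us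
  | [], _, _ => by simp [bas]
  | _ :: _, [], _ => by simp [bas]
  | 0 :: ds, u :: us, h => by
      have := bas_nonneg ds us fun v hv => h v (by simp [hv])
      simp only [bas]; positivity
  | 1 :: ds, u :: us, h => by
      have := bas_nonneg ds us fun v hv => h v (by simp [hv])
      have h0 : 0 ≤ u ∧ u ≤ 1 := h u (by simp)
      have e : 0 ≤ 1 - u := by linarith [h0.2]
      have e' := h0.1
      simp only [bas]; positivity
  | (_ + 2) :: ds, u :: us, h => by
      have := bas_nonneg ds us fun v hv => h v (by simp [hv])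
      simp only [bas]; positivity

theorem bas_mul : ∀ (ds : List ℕ) (us : List ℝ),
    bas (ds.map lo) us * bas (ds.map hi) us = bas (ds.map mid) us ^ 2
  | [], us => by simp [bas]
  | d :: ds, [] => by simp [bas]
  | d :: ds, u :: us => by
      have ih := bas_mul ds us
      rcases d with _ | _ | _ | _ | d <;> simp only [List.map_cons, lo, hi, mid, bas] <;>
        [linear_combination ((1 - u) ^ 4) * ih; linear_combination ((u * (1 - u)) ^ 2) * ih;
         linear_combination (u ^ 4) * ih; linear_combination ((u * (1 - u)) ^ 2) * ih;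
         linear_combination ((u * (1 - u)) ^ 2) * ih]

/-- one AM-GM step -/
def step (n : ℕ) (t : Tr n) (it : ℕ × ℕ × ℕ × ℕ) : Tr n :=
  let ds := digs n it.1
  upd (it.2.2.2 : Int) n (ds.map mid)
    (upd (-(it.2.2.1 : Int)) n (ds.map hi) (upd (-(it.2.1 : Int)) n (ds.map lo) t))

/-- the inequality `C² ≤ 4AB` for an item -/
def okItem (it : ℕ × ℕ × ℕ × ℕ) : Bool := Nat.ble (it.2.2.2 * it.2.2.2) (4 * it.2.1 * it.2.2.1)

theorem step_le (n : ℕ) (t : Tr n) (it : ℕ × ℕ × ℕ × ℕ) (h : okItem it = true) (us : List ℝ)
    (hl : us.length = n) (hu : ∀ u ∈ us, 0 ≤ u ∧ u ≤ 1) :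
    evB n (step n t it) us ≤ evB n t us := by
  obtain ⟨c, A, B, C⟩ := it
  simp only [step]
  have hd : (digs n c).length = n := digs_length n c
  rw [evB_upd _ n _ _ us (by simpa using hd) hl, evB_upd _ n _ _ us (by simpa using hd) hl,
    evB_upd _ n _ _ us (by simpa using hd) hl]
  have h1 := bas_mul (digs n c) us
  have p1 := bas_nonneg ((digs n c).map lo) us hu
  have p2 := bas_nonneg ((digs n c).map hi) us hu
  have p3 := bas_nonneg ((digs n c).map mid) us hu
  have hC : (C : ℝ) ^ 2 ≤ 4 * A * B := by
    have := Nat.le_of_ble_eq_true h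
    simp only at this
    have h2 : C * C ≤ 4 * A * B := this
    rw [pow_two]
    exact_mod_cast h2
  set x := bas ((digs n c).map lo) us
  set y := bas ((digs n c).map hi) us
  set z := bas ((digs n c).map mid) us
  have hA : (0 : ℝ) ≤ A := Nat.cast_nonneg A
  have hB : (0 : ℝ) ≤ B := Nat.cast_nonneg B
  have hC0 : (0 : ℝ) ≤ C := Nat.cast_nonneg C
  have key : (C : ℝ) * z ≤ A * x + B * y := by
    have h3 : ((C : ℝ) * z) ^ 2 ≤ (A * x + B * y) ^ 2 := by
      calc ((C : ℝ) * z) ^ 2 = C ^ 2 * (x * y) := by rw [h1]; ring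
        _ ≤ (4 * A * B) * (x * y) := by
            exact mul_le_mul_of_nonneg_right hC (mul_nonneg p1 p2)
        _ ≤ (A * x + B * y) ^ 2 := by nlinarith [sq_nonneg ((A : ℝ) * x - B * y)]
    exact le_of_sq_le_sq h3 (by positivity)
  push_cast
  linarith

/-- run a list of AM-GM steps -/
def run (n : ℕ) : List (ℕ × ℕ × ℕ × ℕ) → Tr n → Tr n
  | [], t => t
  | it :: its, t => run n its (step n t it)

/-- check all items -/
def okAll : List (ℕ × ℕ × ℕ × ℕ) → Bool
  | [] => true
  | it :: its => okItem it && okAll its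

theorem run_le (n : ℕ) (us : List ℝ) (hl : us.length = n) (hu : ∀ u ∈ us, 0 ≤ u ∧ u ≤ 1) :
    ∀ (its : List (ℕ × ℕ × ℕ × ℕ)) (t : Tr n), okAll its = true →
      evB n (run n its t) us ≤ evB n t us
  | [], t, _ => le_rfl
  | it :: its, t, h => by
      simp only [okAll, Bool.and_eq_true] at h
      exact (run_le n us hl hu its _ h.2).trans (step_le n t it h.1 us hl hu)

/-- zero tree -/
def zeroT : (n : ℕ) → Tr n
  | 0 => (show Int from 0)
  | n + 1 => (zeroT n, zeroT n, zeroT n)

theorem evP_zeroT : ∀ (n : ℕ) (xs : List ℝ), evP n (zeroT n) xs = 0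
  | 0, _ => by simp [evP, zeroT]
  | n + 1, [] => by simp [evP]
  | n + 1, x :: xs => by simp [evP, zeroT, evP_zeroT n]

/-- value of a monomial -/
def mono : List ℕ → List ℝ → ℝ
  | 0 :: ds, _ :: xs => mono ds xs
  | 1 :: ds, x :: xs => x * mono ds xs
  | (_ + 2) :: ds, x :: xs => x ^ 2 * mono ds xs
  | _, _ => 1

theorem evP_upd (z : Int) : ∀ (n : ℕ) (ds : List ℕ) (t : Tr n) (xs : List ℝ),
    ds.length = n → xs.length = n → evP n (upd z n ds t) xs = evP n t xs + z * mono ds xs
  | 0, ds, t, us, h, h' => by
      have h1 : ds = [] := List.length_eq_zero_iff.mp h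
      subst h1
      have e : mono [] us = 1 := by simp [mono]
      rw [e, mul_one]
      exact cast_add t z
  | n + 1, [], t, us, h, _ => by simp at h
  | n + 1, _ :: _, t, [], _, h => by simp at h
  | n + 1, 0 :: ds, t, u :: us, h, h' => by
      have h1 : ds.length = n := by simpa using h
      have h2 : us.length = n := by simpa using h'
      simp only [upd, evP, mono]
      rw [evP_upd z n ds t.1 us h1 h2]
      ring
  | n + 1, 1 :: ds, t, u :: us, h, h' => by
      have h1 : ds.length = n := by simpa using h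
      have h2 : us.length = n := by simpa using h'
      simp only [upd, evP, mono]
      rw [evP_upd z n ds t.2.1 us h1 h2]
      ring
  | n + 1, (_ + 2) :: ds, t, u :: us, h, h' => by
      have h1 : ds.length = n := by simpa using h
      have h2 : us.length = n := by simpa using h'
      simp only [upd, evP, mono]
      rw [evP_upd z n ds t.2.2 us h1 h2]
      ring

/-- build a tree from a list of monomials -/
def build (n : ℕ) : List (List ℕ × Int) → Tr n
  | [] => zeroT n
  | m :: ms => upd m.2 n m.1 (build n ms)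

/-- value of a list of monomials -/
def val : List (List ℕ × Int) → List ℝ → ℝ
  | [], _ => 0
  | m :: ms, xs => (m.2 : ℝ) * mono m.1 xs + val ms xs

/-- all monomials have the right length -/
def lenOk (n : ℕ) : List (List ℕ × Int) → Bool
  | [] => true
  | m :: ms => Nat.beq m.1.length n && lenOk n ms

theorem evP_build (n : ℕ) (xs : List ℝ) (hx : xs.length = n) : ∀ (L : List (List ℕ × Int)),
    lenOk n L = true → evP n (build n L) xs = val L xs
  | [], _ => by simp [build, val, evP_zeroT]
  | m :: ms, h => by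
      simp only [lenOk, Bool.and_eq_true] at h
      simp only [build, val]
      rw [evP_upd _ n _ _ xs (Nat.eq_of_beq_eq_true h.1) hx, evP_build n xs hx ms h.2]
      ring

/-- the full check -/
def check (n : ℕ) (L : List (List ℕ × Int)) (ss : List Bool) (its : List (ℕ × ℕ × ℕ × ℕ)) :
    Bool :=
  okAll its && nn n (run n its (conv n ss (build n L)))

theorem check_sound (n : ℕ) (L : List (List ℕ × Int)) (ss : List Bool)
    (its : List (ℕ × ℕ × ℕ × ℕ)) (hL : lenOk n L = true) (hs : ss.length = n)
    (h : check n L ss its = true) (us : List ℝ) (hl : us.length = n)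
    (hp : (pt ss us).length = n) (hu : ∀ u ∈ us, 0 ≤ u ∧ u ≤ 1) :
    0 ≤ val L (pt ss us) := by
  simp only [check, Bool.and_eq_true] at h
  rw [← evP_build n _ hp L hL, ← evB_conv n ss _ us hs hl]
  exact (evB_nonneg n _ us hu h.2).trans (run_le n us hl hu its _ h.1)

end Pool.Agent.H.MP_9ec287_co.Reflect
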