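import Pool.Agent.H.MP_9ec287_co.Pointwise

/-!
# The weighted inequality

For a symmetric weight function `W : ι → ι → [0,1]` and a probability vector `α`,
`0 ≤ 1/2 - ∑ αᵢαⱼWᵢⱼ + 8 ∑ αᵢαⱼWᵢⱼ (qᵢⱼ + q̄ᵢⱼ)(fᵢⱼ - 1/16)` where
`q = ∑ₖ αₖ WᵢₖWⱼₖ`, `q̄ = ∑ₖ αₖ(1-Wᵢₖ)(1-Wⱼₖ)`, `f = ∑ₖ αₖ Wᵢₖ²Wⱼₖ²`.
-/

namespace Pool.Agent.H.MP_9ec287_co

open Finset Reflect

/-- main part of the 4-point function -/
noncomputable def phi (c a b A B : ℝ) : ℝ :=
  1 / 2 - c + 8 * c * (a * b + (1 - a) * (1 - b)) * (A ^ 2 * B ^ 2 - 1 / 16)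

/-- sum-of-squares part of the 4-point function -/
noncomputable def sos (c a b A B : ℝ) : ℝ :=
  7 / 8 * c * ((a + b - 1) * (A + B - 1)) + 1 / 2 * c * ((a - b) * (A - B))
    + 1 / 2 * (1 - c) * ((a + b - 1) * (A + B - 1)) + (1 - c) * ((a - b) * (A - B))

/-- the difference -/
noncomputable def fr (c a b A B : ℝ) : ℝ := phi c a b A B - sos c a b A B

theorem fr_sum (w01 w02 w03 w12 w13 w23 : ℝ) :
    fr w01 w02 w12 w03 w13 + fr w01 w03 w13 w02 w12
    + fr w02 w01 w12 w03 w23 + fr w02 w03 w23 w01 w12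
    + fr w03 w01 w13 w02 w23 + fr w03 w02 w23 w01 w13
    + fr w12 w01 w02 w13 w23 + fr w12 w13 w23 w01 w02
    + fr w13 w01 w03 w12 w23 + fr w13 w12 w23 w01 w03
    + fr w23 w02 w03 w12 w13 + fr w23 w12 w13 w02 w03
    = G (2 * w01) (2 * w02) (2 * w03) (2 * w12) (2 * w13) (2 * w23) / 32 := by
  unfold fr phi sos G m
  ring

theorem fr_sum_nonneg {w01 w02 w03 w12 w13 w23 : ℝ} (a01 : 0 ≤ w01) (b01 : w01 ≤ 1)
    (a02 : 0 ≤ w02) (b02 : w02 ≤ 1) (a03 : 0 ≤ w03) (b03 : w03 ≤ 1) (a12 : 0 ≤ w12)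
    (b12 : w12 ≤ 1) (a13 : 0 ≤ w13) (b13 : w13 ≤ 1) (a23 : 0 ≤ w23) (b23 : w23 ≤ 1) :
    0 ≤ fr w01 w02 w12 w03 w13 + fr w01 w03 w13 w02 w12
    + fr w02 w01 w12 w03 w23 + fr w02 w03 w23 w01 w12
    + fr w03 w01 w13 w02 w23 + fr w03 w02 w23 w01 w13
    + fr w12 w01 w02 w13 w23 + fr w12 w13 w23 w01 w02
    + fr w13 w01 w03 w12 w23 + fr w13 w12 w23 w01 w03
    + fr w23 w02 w03 w12 w13 + fr w23 w12 w13 w02 w03 := by
  rw [fr_sum]
  have := G_nonneg (x01 := 2 * w01) (x02 := 2 * w02) (x03 := 2 * w03) (x12 := 2 * w12)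
    (x13 := 2 * w13) (x23 := 2 * w23) (by linarith) (by linarith) (by linarith) (by linarith)
    (by linarith) (by linarith) (by linarith) (by linarith) (by linarith) (by linarith)
    (by linarith) (by linarith)
  linarith

section

variable {ι : Type*} [Fintype ι] (α : ι → ℝ)

/-- four-fold weighted sum -/
noncomputable def E (f : ι → ι → ι → ι → ℝ) : ℝ :=
  ∑ x, ∑ y, ∑ z, ∑ t, α x * α y * α z * α t * f x y z t

theorem E1 (f : ι → ι → ι → ι → ℝ) : E α (fun x y z t => f y x z t) = E α f := by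
  unfold E
  rw [Finset.sum_comm]
  refine sum_congr rfl fun x _ => sum_congr rfl fun y _ => sum_congr rfl fun z _ =>
    sum_congr rfl fun t _ => ?_
  ring

theorem E2 (f : ι → ι → ι → ι → ℝ) : E α (fun x y z t => f x z y t) = E α f := by
  unfold E
  refine sum_congr rfl fun x _ => ?_
  rw [Finset.sum_comm]
  refine sum_congr rfl fun y _ => sum_congr rfl fun z _ => sum_congr rfl fun t _ => ?_
  ring

theorem E3 (f : ι → ι → ι → ι → ℝ) : E α (fun x y z t => f x y t z) = E α f := by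
  unfold E
  refine sum_congr rfl fun x _ => sum_congr rfl fun y _ => ?_
  rw [Finset.sum_comm]
  refine sum_congr rfl fun z _ => sum_congr rfl fun t _ => ?_
  ring

theorem E_add (f g : ι → ι → ι → ι → ℝ) :
    E α (fun x y z t => f x y z t + g x y z t) = E α f + E α g := by
  unfold E
  simp only [mul_add, sum_add_distrib]

theorem E_sub (f g : ι → ι → ι → ι → ℝ) :
    E α (fun x y z t => f x y z t - g x y z t) = E α f - E α g := by
  unfold E
  simp only [mul_sub, sum_sub_distrib]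

theorem E_nonneg (hα : ∀ i, 0 ≤ α i) (f : ι → ι → ι → ι → ℝ) (hf : ∀ x y z t, 0 ≤ f x y z t) :
    0 ≤ E α f := by
  unfold E
  refine sum_nonneg fun x _ => sum_nonneg fun y _ => sum_nonneg fun z _ => sum_nonneg fun t _ => ?_
  have := hα x; have := hα y; have := hα z; have := hα t; have := hf x y z t
  positivity

/-- The four-point function is nonnegative on average. -/
theorem E_fr_nonneg (W : ι → ι → ℝ) (hα : ∀ i, 0 ≤ α i) (hW0 : ∀ i j, 0 ≤ W i j)
    (hW1 : ∀ i j, W i j ≤ 1) (hs : ∀ i j, W i j = W j i) :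
    0 ≤ E α (fun x y z t => fr (W x y) (W x z) (W y z) (W x t) (W y t)) := by
  set F : ι → ι → ι → ι → ℝ := fun x y z t => fr (W x y) (W x z) (W y z) (W x t) (W y t)
    with hF
  have a := E2 α F
  have b := (E2 α (fun x y z t => F x y t z)).trans (E3 α F)
  have c := (E3 α (fun x y z t => F x z y t)).trans a
  have d := (E3 α (fun x y z t => F x z t y)).trans b
  have e := (E1 α (fun x y z t => F x z y t)).trans a
  have f := (E1 α (fun x y z t => F x z t y)).trans b
  have g := (E1 α (fun x y z t => F x t y z)).trans c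
  have h := (E1 α (fun x y z t => F x t z y)).trans d
  have i := (E2 α (fun x y z t => F y t x z)).trans g
  have j := (E2 α (fun x y z t => F y t z x)).trans h
  have k := E3 α F
  have key : 0 ≤ E α (fun x y z t => F x y z t + F x y t z + F x z y t + F x z t y
      + F x t y z + F x t z y + F y z x t + F y z t x + F y t x z + F y t z x
      + F z t x y + F z t y x) := by
    refine E_nonneg α hα _ fun x y z t => ?_
    have := fr_sum_nonneg (hW0 x y) (hW1 x y) (hW0 x z) (hW1 x z) (hW0 x t) (hW1 x t)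
      (hW0 y z) (hW1 y z) (hW0 y t) (hW1 y t) (hW0 z t) (hW1 z t)
    simp only [hF]
    rw [hs y x, hs z x, hs z y, hs t x, hs t y, hs t z]
    linarith
  simp only [E_add] at key
  linarith

theorem E_sos_nonneg (W : ι → ι → ℝ) (hα : ∀ i, 0 ≤ α i) (hW0 : ∀ i j, 0 ≤ W i j)
    (hW1 : ∀ i j, W i j ≤ 1) :
    0 ≤ E α (fun x y z t => sos (W x y) (W x z) (W y z) (W x t) (W y t)) := by
  have : E α (fun x y z t => sos (W x y) (W x z) (W y z) (W x t) (W y t))
      = ∑ x, ∑ y, α x * α y * ((7 / 8 * W x y + 1 / 2 * (1 - W x y))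
          * (∑ z, α z * (W x z + W y z - 1)) ^ 2
        + (1 / 2 * W x y + (1 - W x y)) * (∑ z, α z * (W x z - W y z)) ^ 2) := by
    unfold E sos
    refine sum_congr rfl fun x _ => sum_congr rfl fun y _ => ?_
    rw [pow_two, pow_two, sum_mul_sum, sum_mul_sum, mul_add, mul_sum, mul_sum, mul_sum, mul_sum,
      ← sum_add_distrib]
    refine sum_congr rfl fun z _ => ?_
    rw [mul_sum, mul_sum, mul_sum, mul_sum, ← sum_add_distrib]
    refine sum_congr rfl fun t _ => ?_
    ring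
  rw [this]
  refine sum_nonneg fun x _ => sum_nonneg fun y _ => ?_
  have := hα x; have := hα y; have := hW0 x y
  have : 0 ≤ 1 - W x y := by linarith [hW1 x y]
  positivity

/-- The weighted inequality. -/
theorem weighted_ineq (W : ι → ι → ℝ) (hα : ∀ i, 0 ≤ α i) (hα1 : ∑ i, α i = 1)
    (hW0 : ∀ i j, 0 ≤ W i j) (hW1 : ∀ i j, W i j ≤ 1) (hs : ∀ i j, W i j = W j i) :
    0 ≤ 1 / 2 - ∑ i, ∑ j, α i * α j * W i j
      + ∑ i, ∑ j, α i * α j * W i j * (8 * (∑ k, α k * (W i k * W j k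
        + (1 - W i k) * (1 - W j k))) * ((∑ k, α k * (W i k ^ 2 * W j k ^ 2)) - 1 / 16)) := by
  have h1 := E_fr_nonneg α W hα hW0 hW1 hs
  have h2 := E_sos_nonneg α W hα hW0 hW1
  have h3 : E α (fun x y z t => fr (W x y) (W x z) (W y z) (W x t) (W y t))
      = E α (fun x y z t => phi (W x y) (W x z) (W y z) (W x t) (W y t))
        - E α (fun x y z t => sos (W x y) (W x z) (W y z) (W x t) (W y t)) := E_sub α _ _
  have h4 : E α (fun x y z t => phi (W x y) (W x z) (W y z) (W x t) (W y t))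
      = 1 / 2 - ∑ i, ∑ j, α i * α j * W i j
      + ∑ i, ∑ j, α i * α j * W i j * (8 * (∑ k, α k * (W i k * W j k
        + (1 - W i k) * (1 - W j k))) * ((∑ k, α k * (W i k ^ 2 * W j k ^ 2)) - 1 / 16)) := by
    have e1 : ∀ x y, ∑ z, ∑ t, α x * α y * α z * α t * phi (W x y) (W x z) (W y z) (W x t) (W y t)
        = α x * α y * (1 / 2) - α x * α y * W x y
          + α x * α y * W x y * (8 * (∑ k, α k * (W x k * W y k
        + (1 - W x k) * (1 - W y k))) * ((∑ k, α k * (W x k ^ 2 * W y k ^ 2)) - 1 / 16)) := by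
      intro x y
      have e2 : (∑ k, α k * (W x k * W y k + (1 - W x k) * (1 - W y k)))
          * ((∑ k, α k * (W x k ^ 2 * W y k ^ 2)) - 1 / 16)
          = ∑ z, ∑ t, α z * α t * ((W x z * W y z + (1 - W x z) * (1 - W y z))
            * (W x t ^ 2 * W y t ^ 2 - 1 / 16)) := by
        have e3 : (∑ k, α k * (W x k ^ 2 * W y k ^ 2)) - 1 / 16
            = ∑ k, α k * (W x k ^ 2 * W y k ^ 2 - 1 / 16) := by
          simp only [mul_sub, sum_sub_distrib, ← sum_mul, hα1]
          ring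
        rw [e3, sum_mul_sum]
        refine sum_congr rfl fun z _ => sum_congr rfl fun t _ => ?_
        ring
      have e4 : (1 : ℝ) = ∑ z, ∑ t, α z * α t := by
        rw [← sum_mul_sum, hα1]; norm_num
      have e5 : α x * α y * (1 / 2) - α x * α y * W x y
          = (α x * α y * (1 / 2 - W x y)) * ∑ z, ∑ t, α z * α t := by
        rw [← e4]; ring
      rw [e5, mul_assoc (8 : ℝ), e2, mul_sum, mul_sum, mul_sum, ← sum_add_distrib]
      refine sum_congr rfl fun z _ => ?_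
      rw [mul_sum, mul_sum, mul_sum, ← sum_add_distrib]
      refine sum_congr rfl fun t _ => ?_
      unfold phi
      ring
    unfold E
    simp only [e1, sum_add_distrib, sum_sub_distrib]
    congr 2
    simp only [← sum_mul]
    rw [← Finset.sum_mul_sum, hα1]
    norm_num
  rw [← h4]
  linarith

end

end Pool.Agent.H.MP_9ec287_co
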