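import Mathlib

/-!
# Weighted stability

If a symmetric `[0,1]`-valued weight function has density at least `1/4` and the total weight of
triangles and of edge-plus-two-non-edges triples is at most `τ`, then the index set splits into
two parts with little inner weight.
-/

namespace Pool.Agent.H.MP_9ec287_co

open Finset

theorem weighted_stability {ι : Type*} [Fintype ι] [DecidableEq ι] (α : ι → ℝ) (W : ι → ι → ℝ)
    (hα : ∀ i, 0 ≤ α i) (hα1 : ∑ i, α i = 1) (hW0 : ∀ i j, 0 ≤ W i j) (hW1 : ∀ i j, W i j ≤ 1)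
    (hs : ∀ i j, W i j = W j i) (τ : ℝ) (hp : 1 / 4 ≤ ∑ i, ∑ j, α i * α j * W i j)
    (hT : ∑ i, ∑ j, α i * α j * W i j *
      (∑ k, α k * (W i k * W j k + (1 - W i k) * (1 - W j k))) ≤ τ) :
    ∃ A : Finset ι, ∑ i ∈ A, ∑ j ∈ A, α i * α j * W i j
      + ∑ i ∈ Aᶜ, ∑ j ∈ Aᶜ, α i * α j * W i j ≤ 96 * τ := by
  -- abbreviations
  set Q : ι → ι → ℝ := fun i j => ∑ k, α k * (W i k * W j k + (1 - W i k) * (1 - W j k)) with hQ
  set t : ι → ℝ := fun i => ∑ k, ∑ l, α k * α l * (W i k * W i l * W k l) with ht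
  have hQ0 : ∀ i j, 0 ≤ Q i j := by
    intro i j
    refine sum_nonneg fun k _ => ?_
    have := hα k; have := hW0 i k; have := hW0 j k
    have : 0 ≤ 1 - W i k := by linarith [hW1 i k]
    have : 0 ≤ 1 - W j k := by linarith [hW1 j k]
    positivity
  have ht0 : ∀ i, 0 ≤ t i := by
    intro i
    refine sum_nonneg fun k _ => sum_nonneg fun l _ => ?_
    have := hα k; have := hα l; have := hW0 i k; have := hW0 i l; have := hW0 k l
    positivity
  -- total triangle weight
  have hT1 : ∑ i, α i * t i ≤ τ := by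
    refine le_trans ?_ hT
    have e : ∑ i, α i * t i = ∑ i, ∑ j, α i * α j * W i j * (∑ k, α k * (W i k * W j k)) := by
      refine sum_congr rfl fun i _ => ?_
      simp only [ht, mul_sum]
      refine sum_congr rfl fun j _ => sum_congr rfl fun k _ => ?_
      ring
    rw [e]
    refine sum_le_sum fun i _ => sum_le_sum fun j _ => ?_
    have h1 : ∑ k, α k * (W i k * W j k) ≤ Q i j := by
      refine sum_le_sum fun k _ => ?_
      refine mul_le_mul_of_nonneg_left ?_ (hα k)
      have : 0 ≤ 1 - W i k := by linarith [hW1 i k]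
      have : 0 ≤ 1 - W j k := by linarith [hW1 j k]
      nlinarith [mul_nonneg ‹0 ≤ 1 - W i k› ‹0 ≤ 1 - W j k›]
    refine mul_le_mul_of_nonneg_left h1 ?_
    have := hα i; have := hα j; have := hW0 i j
    positivity
  have hdeg : ∀ i, ∑ j, α j * W i j ≤ 1 := by
    intro i
    calc ∑ j, α j * W i j ≤ ∑ j, α j * 1 :=
          sum_le_sum fun j _ => mul_le_mul_of_nonneg_left (hW1 i j) (hα j)
      _ = 1 := by simp [hα1]
  have h2 : ∑ i, ∑ j, α i * α j * W i j * t i ≤ τ := by
    refine le_trans ?_ hT1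
    refine sum_le_sum fun i _ => ?_
    have : ∑ j, α i * α j * W i j * t i = (α i * t i) * ∑ j, α j * W i j := by
      rw [mul_sum]; exact sum_congr rfl fun j _ => by ring
    rw [this]
    have h3 : 0 ≤ α i * t i := mul_nonneg (hα i) (ht0 i)
    nlinarith [hdeg i]
  have h3 : ∑ i, ∑ j, α i * α j * W i j * t j ≤ τ := by
    rw [sum_comm]
    refine le_trans (le_of_eq ?_) h2
    refine sum_congr rfl fun i _ => sum_congr rfl fun j _ => ?_
    rw [hs j i]; ring
  have h4 : ∑ i, ∑ j, α i * α j * W i j * (Q i j + t i + t j) ≤ 3 * τ := by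
    have : ∑ i, ∑ j, α i * α j * W i j * (Q i j + t i + t j)
        = ∑ i, ∑ j, α i * α j * W i j * Q i j + ∑ i, ∑ j, α i * α j * W i j * t i
          + ∑ i, ∑ j, α i * α j * W i j * t j := by
      simp only [mul_add, sum_add_distrib]
    rw [this]; linarith
  -- a good pair
  obtain ⟨i, j, hij⟩ : ∃ i j, Q i j + t i + t j ≤ 12 * τ := by
    by_contra hcon
    push Not at hcon
    have hτ : 0 ≤ τ := le_trans (sum_nonneg fun i _ => mul_nonneg (hα i) (ht0 i)) hT1
    have h5 : 3 * τ < ∑ i, ∑ j, α i * α j * W i j * (Q i j + t i + t j) := by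
      have h6 : ∀ i j, α i * α j * W i j * (12 * τ) ≤ α i * α j * W i j * (Q i j + t i + t j) := by
        intro i j
        have := hα i; have := hα j; have := hW0 i j
        exact mul_le_mul_of_nonneg_left (hcon i j).le (by positivity)
      -- a pair of positive weight
      obtain ⟨i, j, hij⟩ : ∃ i j, 0 < α i * α j * W i j := by
        by_contra hc
        push Not at hc
        have : ∑ i, ∑ j, α i * α j * W i j ≤ 0 :=
          sum_nonpos fun i _ => sum_nonpos fun j _ => hc i j
        linarith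
      have h7 : ∑ i, ∑ j, α i * α j * W i j * (12 * τ)
          < ∑ i, ∑ j, α i * α j * W i j * (Q i j + t i + t j) := by
        refine sum_lt_sum (fun i _ => sum_le_sum fun j _ => h6 i j) ⟨i, mem_univ _, ?_⟩
        exact sum_lt_sum (fun j _ => h6 i j) ⟨j, mem_univ _, mul_lt_mul_of_pos_left (hcon i j) hij⟩
      have h8 : ∑ i, ∑ j, α i * α j * W i j * (12 * τ)
          = (∑ i, ∑ j, α i * α j * W i j) * (12 * τ) := by
        simp only [sum_mul]
      rw [h8] at h7
      nlinarith
    linarith
  have hQij := hQ0 i j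
  have hti := ht0 i
  have htj := ht0 j
  refine ⟨univ.filter fun k => 1 / 2 ≤ W i k, ?_⟩
  set A := univ.filter fun k => 1 / 2 ≤ W i k with hA
  have hA1 : ∀ k ∈ A, 1 / 2 ≤ W i k := fun k hk => (mem_filter.mp hk).2
  have hA2 : ∀ k ∈ Aᶜ, W i k < 1 / 2 := fun k hk => by
    have := mem_compl.mp hk
    rw [hA, mem_filter] at this
    push Not at this
    exact this (mem_univ _)
  -- inside A
  have a1 : ∑ k ∈ A, ∑ l ∈ A, α k * α l * W k l ≤ 4 * t i := by
    have : 4 * t i = ∑ k, ∑ l, 4 * (α k * α l * (W i k * W i l * W k l)) := by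
      simp only [ht, mul_sum]
    rw [this]
    have step : ∑ k ∈ A, ∑ l ∈ A, α k * α l * W k l
        ≤ ∑ k ∈ A, ∑ l ∈ A, 4 * (α k * α l * (W i k * W i l * W k l)) := by
      refine sum_le_sum fun k hk => sum_le_sum fun l hl => ?_
      have b1 := hA1 k hk; have b2 := hA1 l hl
      have b3 : 1 / 4 ≤ W i k * W i l := by nlinarith
      have b4 : 0 ≤ α k * α l * W k l := by
        have := hα k; have := hα l; have := hW0 k l; positivity
      nlinarith
    refine step.trans ?_
    have nn : ∀ k l, 0 ≤ 4 * (α k * α l * (W i k * W i l * W k l)) := by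
      intro k l
      have := hα k; have := hα l; have := hW0 i k; have := hW0 i l; have := hW0 k l
      positivity
    calc ∑ k ∈ A, ∑ l ∈ A, 4 * (α k * α l * (W i k * W i l * W k l))
        ≤ ∑ k ∈ A, ∑ l, 4 * (α k * α l * (W i k * W i l * W k l)) :=
          sum_le_sum fun k _ => sum_le_sum_of_subset_of_nonneg (subset_univ _)
            fun l _ _ => nn k l
      _ ≤ _ := sum_le_sum_of_subset_of_nonneg (subset_univ _)
            fun k _ _ => sum_nonneg fun l _ => nn k l
  -- inside the complement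
  have a2 : ∑ k ∈ Aᶜ, ∑ l ∈ Aᶜ, α k * α l * W k l ≤ 4 * t j + 8 * Q i j := by
    have pw : ∀ k ∈ Aᶜ, ∀ l ∈ Aᶜ, α k * α l * W k l ≤ 4 * (α k * α l * (W j k * W j l * W k l))
        + (4 * (α k * ((1 - W i k) * (1 - W j k))) * α l
          + 4 * (α l * ((1 - W i l) * (1 - W j l))) * α k) := by
      intro k hk l hl
      have c1 := hA2 k hk; have c2 := hA2 l hl
      have := hα k; have := hα l; have := hW0 k l; have := hW1 k l
      have := hW0 j k; have := hW0 j l; have := hW1 j k; have := hW1 j l
      have p0 : 0 ≤ α k * α l := by positivity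
      have key : W k l ≤ 4 * (W j k * W j l * W k l) + (4 * ((1 - W i k) * (1 - W j k))
          + 4 * ((1 - W i l) * (1 - W j l))) := by
        have n1 : 0 ≤ (1 - W i k) * (1 - W j k) := mul_nonneg (by linarith) (by linarith)
        have n2 : 0 ≤ (1 - W i l) * (1 - W j l) := mul_nonneg (by linarith) (by linarith)
        have n3 : 0 ≤ W j k * W j l * W k l := by positivity
        rcases lt_or_ge (W j k) (1 / 2) with d1 | d1
        · have : 1 / 4 ≤ (1 - W i k) * (1 - W j k) := by nlinarith
          linarith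
        · rcases lt_or_ge (W j l) (1 / 2) with d2 | d2
          · have : 1 / 4 ≤ (1 - W i l) * (1 - W j l) := by nlinarith
            linarith
          · have : 1 / 4 ≤ W j k * W j l := by nlinarith
            nlinarith
      nlinarith [mul_le_mul_of_nonneg_left key p0]
    have nn1 : ∀ k l, 0 ≤ 4 * (α k * α l * (W j k * W j l * W k l)) := by
      intro k l
      have := hα k; have := hα l; have := hW0 j k; have := hW0 j l; have := hW0 k l
      positivity
    have nn2 : ∀ k, 0 ≤ α k * ((1 - W i k) * (1 - W j k)) := by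
      intro k
      have : 0 ≤ 1 - W i k := by linarith [hW1 i k]
      have : 0 ≤ 1 - W j k := by linarith [hW1 j k]
      have := hα k
      positivity
    have nn3 : ∀ k l, 0 ≤ 4 * (α k * α l * (W j k * W j l * W k l))
        + (4 * (α k * ((1 - W i k) * (1 - W j k))) * α l
          + 4 * (α l * ((1 - W i l) * (1 - W j l))) * α k) := by
      intro k l
      have := nn1 k l
      have := mul_nonneg (nn2 k) (hα l)
      have := mul_nonneg (nn2 l) (hα k)
      linarith
    have step : ∑ k ∈ Aᶜ, ∑ l ∈ Aᶜ, α k * α l * W k l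
        ≤ ∑ k, ∑ l, (4 * (α k * α l * (W j k * W j l * W k l))
        + (4 * (α k * ((1 - W i k) * (1 - W j k))) * α l
          + 4 * (α l * ((1 - W i l) * (1 - W j l))) * α k)) :=
      calc _ ≤ ∑ k ∈ Aᶜ, ∑ l ∈ Aᶜ, (4 * (α k * α l * (W j k * W j l * W k l))
        + (4 * (α k * ((1 - W i k) * (1 - W j k))) * α l
          + 4 * (α l * ((1 - W i l) * (1 - W j l))) * α k)) :=
            sum_le_sum fun k hk => sum_le_sum fun l hl => pw k hk l hl
        _ ≤ ∑ k ∈ Aᶜ, ∑ l, (4 * (α k * α l * (W j k * W j l * W k l))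
        + (4 * (α k * ((1 - W i k) * (1 - W j k))) * α l
          + 4 * (α l * ((1 - W i l) * (1 - W j l))) * α k)) :=
            sum_le_sum fun k _ => sum_le_sum_of_subset_of_nonneg (subset_univ _)
              fun l _ _ => nn3 k l
        _ ≤ _ := sum_le_sum_of_subset_of_nonneg (subset_univ _)
              fun k _ _ => sum_nonneg fun l _ => nn3 k l
    refine step.trans ?_
    simp only [sum_add_distrib]
    have e1 : ∑ k, ∑ l, 4 * (α k * α l * (W j k * W j l * W k l)) = 4 * t j := by
      simp only [ht, mul_sum]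
    have e2 : ∑ k, ∑ l, 4 * (α k * ((1 - W i k) * (1 - W j k))) * α l
        = 4 * ∑ k, α k * ((1 - W i k) * (1 - W j k)) := by
      simp only [← mul_sum, hα1, mul_one]
    have e3 : ∑ k, ∑ l, 4 * (α l * ((1 - W i l) * (1 - W j l))) * α k
        = 4 * ∑ k, α k * ((1 - W i k) * (1 - W j k)) := by
      rw [sum_comm]; exact e2
    have e4 : ∑ k, α k * ((1 - W i k) * (1 - W j k)) ≤ Q i j := by
      refine sum_le_sum fun k _ => mul_le_mul_of_nonneg_left ?_ (hα k)
      have := mul_nonneg (hW0 i k) (hW0 j k)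
      linarith
    rw [e1, e2, e3]
    linarith
  linarith

end Pool.Agent.H.MP_9ec287_co
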